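import Pool.Agent.Y498.WD.Dense2

/-! # The width conjecture fails with a uniform gap and on a dense set -/

set_option autoImplicit false

namespace Pool.Agent.Results.MP_df6699_an.DenseCounterexamples

open Finset

/-- The region `S_{ρ,K} = {x + i y : x > 0, |y| < K x^{1-ρ/2}}`. -/
def region (ρ K : ℝ) : Set ℂ := {z | 0 < z.re ∧ |z.im| < K * z.re ^ (1 - ρ / 2)}

/-- The larger region `{x + i y : x ≥ 0, |y| ≤ K x^{1-ρ/2}}`. -/
def closedRegion (ρ K : ℝ) : Set ℂ := {z | 0 ≤ z.re ∧ |z.im| ≤ K * z.re ^ (1 - ρ / 2)}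

/-- The `n`-th partial sum `S_n(z) = ∑_{k=0}^n a_k z^k`. -/
noncomputable def partialSum (a : ℕ → ℂ) (n : ℕ) (z : ℂ) : ℂ := ∑ k ∈ range (n + 1), a k * z ^ k

/-- The power series `∑ a_k z^k` is entire: it converges at every `z`. -/
def IsEntire (a : ℕ → ℂ) : Prop := ∀ z : ℂ, Summable (fun k => a k * z ^ k)

/-- `M(r, f) = max_{|z| = r} |f(z)|` for `f(z) = ∑ a_k z^k`. -/
noncomputable def maxModulus (a : ℕ → ℂ) (r : ℝ) : ℝ :=
  sSup ((fun z : ℂ => ‖∑' k, a k * z ^ k‖) '' Metric.sphere 0 r)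

/-- The order `limsup_{r → ∞} log log M(r, f) / log r`. -/
noncomputable def order (a : ℕ → ℂ) : EReal :=
  Filter.limsup (fun r : ℝ =>
    ((Real.log (Real.log (maxModulus a r)) / Real.log r : ℝ) : EReal)) Filter.atTop

/-- All partial sums `S_n`, `n = 1, 2, 3, …`, have no zero in the set `A`. -/
def ZeroFreeSums (A : Set ℂ) (a : ℕ → ℂ) : Prop :=
  ∀ n : ℕ, 1 ≤ n → ∀ z ∈ A, partialSum a n z ≠ 0

/-- `a` and `c` differ, as functions, by at most `ε` on the disc of radius `R`. -/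
def CloseOn (R ε : ℝ) (f g : ℂ → ℂ) : Prop := ∀ z : ℂ, ‖z‖ ≤ R → ‖f z - g z‖ ≤ ε

/-- The width conjecture of Saff and Varga fails for every `0 < ρ ≤ 4` and every `K > 0`, with a
uniform gap: there is an entire function of order at least `(1 + 1/600) ρ` none of whose partial
sums `S_n`, `n ≥ 1`, has a zero in `S_{ρ,K}`. For `ρ ≤ 2` such functions (with order at least
`(1 + 1/500) ρ`, and for the larger closed region) are dense for locally uniform convergence among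
all entire functions with zero-free partial sums, and every polynomial of degree `N ≥ 1` whose
partial sums `S_1, …, S_N` are zero-free on the closed region is the partial sum `S_N` of one. -/
theorem result (ρ K : ℝ) (hρ : 0 < ρ) (hρ4 : ρ ≤ 4) (hK : 0 < K) :
    (∃ a : ℕ → ℂ, ZeroFreeSums (region ρ K) a ∧ IsEntire a ∧
      ((ρ * (1 + 1 / 600) : ℝ) : EReal) ≤ order a) ∧
    (ρ ≤ 2 → ∀ c : ℕ → ℂ, IsEntire c → ZeroFreeSums (closedRegion ρ K) c → ∀ R ε : ℝ, 0 < ε →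
      ∃ a : ℕ → ℂ, ZeroFreeSums (closedRegion ρ K) a ∧ IsEntire a ∧
        ((ρ * (1 + 1 / 500) : ℝ) : EReal) ≤ order a ∧
        CloseOn R ε (fun z => ∑' k, a k * z ^ k) (fun z => ∑' k, c k * z ^ k)) ∧
    (ρ ≤ 2 → ∀ (c : ℕ → ℂ) (N : ℕ), 1 ≤ N → c N ≠ 0 →
      (∀ n, 1 ≤ n → n ≤ N → ∀ z ∈ closedRegion ρ K, partialSum c n z ≠ 0) → ∀ R ε : ℝ, 0 < ε →
      ∃ a : ℕ → ℂ, (∀ k ≤ N, a k = c k) ∧ ZeroFreeSums (closedRegion ρ K) a ∧ IsEntire a ∧
        ((ρ * (1 + 1 / 500) : ℝ) : EReal) ≤ order a ∧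
        CloseOn R ε (fun z => ∑' k, a k * z ^ k) (partialSum c N)) := by
  refine ⟨?_, fun h2 c hE hc R ε hε => ?_, fun h2 c N hN hcN hc R ε hε => ?_⟩
  · obtain ⟨a, h1, h2, h3⟩ := Width.exists_counterexample3 ρ K hρ hρ4 hK
    exact ⟨a, fun n hn z hz => h1 n hn z hz.1 hz.2, h2, h3⟩
  · obtain ⟨a, h1, h2, h3, h4⟩ := Pool.Agent.Y498.WD.dense ρ K hρ h2 hK c hE hc R ε hε
    exact ⟨a, h1, h2, h3, h4⟩
  · obtain ⟨a, h0, h1, h2, h3, h4⟩ :=
      Pool.Agent.Y498.WD.extend ρ K hρ h2 hK c N hN hcN hc R ε hε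
    exact ⟨a, h0, h1, h2, h3, h4⟩

end Pool.Agent.Results.MP_df6699_an.DenseCounterexamples
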